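import Mathlib
import Pool.Agent.W2helper23.LR1.Final

set_option autoImplicit false

namespace Pool.Agent.Results.MP_cf641d_an.ManhattanRigid

open Pool.Agent.Helper23K9.LR

/-- For every `d ≥ 2` the space `ℝ^d` with the Manhattan distance `∑ |x_i - y_i|` is Lipschitz-free rigid: every
surjective linear isometry `T` of the Lipschitz-free space `𝓕(ℝ^d)` is `ε T_φ` for a sign `ε` and a surjective
dilation `φ`. -/
theorem result (d : ℕ) (hd : 2 ≤ d) : LipFreeRigid (PiLp 1 (fun _ : Fin d => ℝ)) :=
  Pool.Agent.W2helper23.LR1.rigid1 hd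

end Pool.Agent.Results.MP_cf641d_an.ManhattanRigid
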